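import Pool.Agent.Helper74_Webb.Down
import Pool.Agent.Helper74_Webb.Non

/-!
# MP_4b39f0_al : the orbit poset of chains of elementary abelian subgroups need not be contractible

`G = 2^7 : S_8` (the Weyl group of type `B_8` modulo its centre), `p = 2`.
-/

namespace Pool.Agent.Results.MP_4b39f0_al.NotContractible

open Pool.Agent.Helper74Webb

/-- There are a finite group `G` and a prime `p` dividing `|G|` such that the finite space
`𝒜_p(G)'/G` (open sets = down-sets) is not contractible. -/
theorem result : ∃ (G : Type) (_ : Group G) (_ : Finite G) (p : ℕ), p.Prime ∧ p ∣ Nat.card G ∧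
    ¬ ContractibleSpace (Topology.WithLowerSet (OrbitPoset p G)) := by
  refine ⟨GG, inferInstance, inferInstance, 2, Nat.prime_two, ?_, factsGG.not_contractible⟩
  rw [← GG.card_gP]
  exact Subgroup.card_subgroup_dvd_card _

end Pool.Agent.Results.MP_4b39f0_al.NotContractible
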